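import Mathlib
import Pool.Agent.Lib.MP_208a82_co.Defs
import Pool.Agent.Lib.MP_208a82_co.Final

set_option autoImplicit false

namespace Pool.Agent.Results.MP_208a82_co.WindowConnectivity

open Pool.Agent.Lib.MP_208a82_co

/-- Let `d ≥ 2` and let `I ⊆ (0, ∞)` be an interval with more than one point. The subgraph of `Γ(d)` induced on the
polytopes with volume in `I` is connected if and only if `I` has no greatest element. -/
theorem result (d : ℕ) (hd : 2 ≤ d) (I : Set ℝ) (hpos : I ⊆ Set.Ioi 0) (hint : I.OrdConnected)
    (hnt : I.Nontrivial) :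
    ((Gamma (EuclideanSpace ℝ (Fin d))).induce (window I)).Connected ↔
      ¬ ∃ b : ℝ, IsGreatest I b := by
  apply main _ I hpos hint hnt
  rw [finrank_euclideanSpace, Fintype.card_fin]
  exact hd

end Pool.Agent.Results.MP_208a82_co.WindowConnectivity
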